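import Pool.Agent.Y762.HD.Stage

/-!
Closed sets of density one and Haight's question.
-/

set_option autoImplicit false

namespace Pool.Agent.Y762.HD

open Filter Topology MeasureTheory
open Pool.Agent.W755.Haight

theorem main (a ε : ℝ) (ha : 0 < a) (hε : 0 < ε) : ∃ E : Set ℝ, IsClosed E ∧ E ⊆ Set.Ici a ∧
    (∀ X : ℝ, 0 < X → volume (Set.Icc a X \ E) ≤ ENNReal.ofReal (ε * X)) ∧
    Tendsto (fun X : ℝ => volume.real (Set.Icc a X ∩ E) / X) atTop (𝓝 1) ∧
    ∀ x : ℝ, 0 < x → (∀ s : ℕ, 0 < s → x / s ∉ E) →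
      {n : ℕ | n.Prime ∧ ¬ ∃ r : ℕ, 0 < r ∧ ∃ z ∈ E, (n : ℝ) * x = r * z}.Infinite := by
  classical
  have hst : ∀ j : ℕ, ∃ (U : Set ℝ) (B : ℝ), IsOpen U ∧ U ⊆ Set.Iio B ∧
      (∀ X : ℝ, 0 < X → volume (Set.Iic X ∩ U) ≤ ENNReal.ofReal (ε / 2 / 2 ^ j * X)) ∧
      ∀ x : ℝ, 0 < x → x ≤ (j : ℝ) + 1 → ∃ n : ℕ, n.Prime ∧ j ≤ n ∧
        ∀ r : ℕ, 0 < r → ∀ z : ℝ, a ≤ z → (n : ℝ) * x = r * z → z ∈ U ∨
          ∃ (s : ℕ) (q : ℝ), 0 < s ∧ 1 / (1 + 1 / ((j : ℝ) + 1)) < q ∧
            q < 1 + 1 / ((j : ℝ) + 1) ∧ z = q * (x / s) := by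
    intro j
    apply stage a _ ha (by positivity) j _ ?_ _ (by positivity)
    have : (0:ℝ) < 1 / ((j : ℝ) + 1) := by positivity
    linarith
  choose U B hUo hUB hUv hU using hst
  set E : Set ℝ := Set.Ici a \ ⋃ j, U j with hE
  have hEc : IsClosed E := isClosed_Ici.sdiff (isOpen_iUnion hUo)
  -- the tail estimate
  have htail : ∀ (J : ℕ) (X : ℝ), 0 < X → volume (Set.Iic X ∩ ⋃ j, U (j + J))
      ≤ ENNReal.ofReal (ε / 2 ^ J * X) := by
    intro J X hX
    rw [Set.inter_iUnion]
    refine (measure_iUnion_le _).trans ?_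
    refine (ENNReal.tsum_le_tsum fun j => hUv (j + J) X hX).trans ?_
    have e : ∀ j : ℕ, ε / 2 / 2 ^ (j + J) * X = (ε / 2 ^ J * X) / 2 / 2 ^ j := by
      intro j
      rw [pow_add]
      field_simp
    simp_rw [e]
    rw [← ENNReal.ofReal_tsum_of_nonneg (fun j => by positivity) (summable_geometric_two' _),
      tsum_geometric_two']
  have hdiff : ∀ X : ℝ, Set.Icc a X \ E ⊆ Set.Iic X ∩ ⋃ j, U j := by
    rintro X z ⟨hz, hzE⟩
    refine ⟨hz.2, ?_⟩
    by_contra hcon
    exact hzE ⟨hz.1, hcon⟩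
  refine ⟨E, hEc, Set.sdiff_subset, ?_, ?_, ?_⟩
  · intro X hX
    refine (measure_mono (hdiff X)).trans ?_
    have := htail 0 X hX
    simpa using this
  · -- density one
    rw [Metric.tendsto_atTop]
    intro η hη
    obtain ⟨J, hJ⟩ : ∃ J : ℕ, ε / 2 ^ J < η / 2 := by
      obtain ⟨J, hJ⟩ := exists_nat_gt (2 * ε / η)
      refine ⟨J, ?_⟩
      have h1 : (J : ℝ) < 2 ^ J := by exact_mod_cast Nat.lt_two_pow_self
      rw [div_lt_iff₀ (by positivity)]
      rw [div_lt_iff₀ hη] at hJ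
      nlinarith
    obtain ⟨C, hC⟩ : ∃ C : ℝ, ∀ j < J, B j ≤ C := by
      refine ⟨∑ j ∈ Finset.range J, |B j|, fun j hj => ?_⟩
      exact (le_abs_self _).trans
        (Finset.single_le_sum (f := fun j => |B j|) (fun i _ => abs_nonneg _)
          (Finset.mem_range.2 hj))
    set C' : ℝ := max (C - a) 0 with hC'
    have hC'0 : 0 ≤ C' := le_max_right _ _
    have hh : ∀ X : ℝ, 0 < X → volume (Set.Icc a X \ E)
        ≤ ENNReal.ofReal (C' + ε / 2 ^ J * X) := by
      intro X hX
      have hsub : Set.Icc a X \ E ⊆ Set.Icc a C ∪ (Set.Iic X ∩ ⋃ j, U (j + J)) := by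
        rintro z hz
        obtain ⟨hzX, hzU⟩ := hdiff X hz
        obtain ⟨j, hj⟩ := Set.mem_iUnion.1 hzU
        by_cases hjJ : j < J
        · left
          exact ⟨hz.1.1, (le_of_lt (hUB j hj)).trans (hC j hjJ)⟩
        · right
          refine ⟨hzX, Set.mem_iUnion.2 ⟨j - J, ?_⟩⟩
          rwa [Nat.sub_add_cancel (not_lt.1 hjJ)]
      refine (measure_mono hsub).trans ((measure_union_le _ _).trans ?_)
      rw [ENNReal.ofReal_add hC'0 (by positivity)]
      refine add_le_add ?_ (htail J X hX)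
      rw [Real.volume_Icc]
      exact ENNReal.ofReal_le_ofReal (le_max_left _ _)
    refine ⟨max a (2 * (a + C') / η + 1), fun X hX => ?_⟩
    have hXa : a ≤ X := (le_max_left _ _).trans hX
    have hX1 : 2 * (a + C') / η + 1 ≤ X := (le_max_right _ _).trans hX
    have hX0 : 0 < X := lt_of_lt_of_le ha hXa
    have h1 : 2 * (a + C') < η * X := by
      have : 2 * (a + C') / η < X := by linarith
      rw [div_lt_iff₀ hη] at this
      linarith
    have hsplit : volume.real (Set.Icc a X ∩ E) + volume.real (Set.Icc a X \ E) = X - a := by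
      rw [measureReal_inter_add_sdiff (h := by rw [Real.volume_Icc]; exact ENNReal.ofReal_ne_top)
        hEc.measurableSet, Real.volume_real_Icc_of_le hXa]
    have hle : volume.real (Set.Icc a X \ E) ≤ C' + ε / 2 ^ J * X :=
      ENNReal.toReal_le_of_le_ofReal (by positivity) (hh X hX0)
    have h0 : 0 ≤ volume.real (Set.Icc a X \ E) := measureReal_nonneg
    rw [Real.dist_eq, abs_lt]
    have e : volume.real (Set.Icc a X ∩ E) / X - 1
        = - (a + volume.real (Set.Icc a X \ E)) / X := by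
      field_simp
      linarith
    rw [e]
    have h2 : ε / 2 ^ J * X < η / 2 * X := by gcongr
    constructor
    · rw [lt_div_iff₀ hX0]
      nlinarith
    · refine lt_of_le_of_lt (div_nonpos_of_nonpos_of_nonneg (by linarith) hX0.le) hη
  · intro x hx hxE
    rw [Set.infinite_iff_exists_gt]
    intro b
    set S : ℕ := ⌊2 * x / a⌋₊ with hS
    have hev : ∀ᶠ j : ℕ in atTop, ∀ s ∈ Finset.Icc 1 S, ∀ q : ℝ,
        1 / (1 + 1 / ((j : ℝ) + 1)) < q → q < 1 + 1 / ((j : ℝ) + 1) → q * (x / s) ∉ E := by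
      rw [Filter.eventually_all_finset]
      intro s hs
      have hs0 : 0 < s := (Finset.mem_Icc.1 hs).1
      have hs1 : (1 : ℝ) ≤ s := by exact_mod_cast hs0
      have hnot := hxE s hs0
      obtain ⟨η, hη, hball⟩ := Metric.isOpen_iff.1 hEc.isOpen_compl (x / s) hnot
      obtain ⟨j0, hj0⟩ := exists_nat_gt (x / η)
      filter_upwards [Filter.eventually_ge_atTop j0] with j hj q hq1 hq2
      have hjj : (j0 : ℝ) ≤ j := by exact_mod_cast hj
      have hpos : (0 : ℝ) < (j : ℝ) + 1 := by positivity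
      set w : ℝ := 1 / ((j : ℝ) + 1) with hw
      have hw0 : 0 < w := by positivity
      have hqabs : |q - 1| ≤ w := by
        rw [abs_le]
        constructor
        · have h3 : 1 - w ≤ 1 / (1 + w) := by
            rw [le_div_iff₀ (by linarith)]
            nlinarith
          linarith
        · linarith
      have hxs : x / s ≤ x := div_le_self hx.le hs1
      have hxs0 : 0 < x / s := by positivity
      have hlt : x * w < η := by
        rw [hw, mul_one_div, div_lt_iff₀ hpos]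
        rw [div_lt_iff₀ hη] at hj0
        nlinarith
      apply hball
      rw [Metric.mem_ball, Real.dist_eq]
      have e : q * (x / s) - x / s = (q - 1) * (x / s) := by ring
      rw [e, abs_mul, abs_of_pos hxs0]
      calc |q - 1| * (x / s) ≤ w * x := by gcongr
        _ = x * w := mul_comm _ _
        _ < η := hlt
    obtain ⟨j1, hj1⟩ := Filter.eventually_atTop.1 hev
    obtain ⟨j2, hj2⟩ := exists_nat_gt x
    set j := max (b + 1) (max j1 j2) with hj
    have hjb : b + 1 ≤ j := le_max_left _ _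
    have hjj1 : j1 ≤ j := (le_max_left _ _).trans (le_max_right _ _)
    have hjj2 : j2 ≤ j := (le_max_right _ _).trans (le_max_right _ _)
    have hxj : x ≤ (j : ℝ) + 1 := by
      have : (j2 : ℝ) ≤ j := by exact_mod_cast hjj2
      linarith
    obtain ⟨n, hn, hjn, hn2⟩ := hU j x hx hxj
    refine ⟨n, ⟨hn, ?_⟩, by omega⟩
    rintro ⟨r, hr, z, hz, hrz⟩
    have hza : a ≤ z := hz.1
    rcases hn2 r hr z hza hrz with h | ⟨s, q, hs, hq1, hq2, hzq⟩
    · exact hz.2 (Set.mem_iUnion.2 ⟨j, h⟩)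
    · have hspos : (0:ℝ) < s := by exact_mod_cast hs
      have hw1 : 1 / ((j : ℝ) + 1) ≤ 1 := by
        rw [div_le_one (by positivity)]
        have : (0:ℝ) ≤ j := Nat.cast_nonneg j
        linarith
      have hsS : s ∈ Finset.Icc 1 S := by
        rw [Finset.mem_Icc]
        refine ⟨hs, Nat.le_floor ?_⟩
        rw [le_div_iff₀ ha]
        have h3 : a * s ≤ q * x := by
          have h4 : z * s = q * x := by rw [hzq]; field_simp
          rw [← h4]
          gcongr
        have h5 : q * x ≤ 2 * x := by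
          have : q ≤ 2 := by linarith
          gcongr
        linarith
      apply hj1 j hjj1 s hsS q hq1 hq2
      rw [← hzq]
      exact hz

end Pool.Agent.Y762.HD
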