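import Pool.Agent.Y762.HD.Vol

/-!
One stage of the construction.
-/

set_option autoImplicit false

namespace Pool.Agent.Y762.HD

open Finset Filter Topology MeasureTheory
open Pool.Agent.W755.Haight

/-- One stage: an open bounded set `U` of small relative measure at all scales such that every
`x ≤ Xm` has a prime `n` for which all `z ≥ a` in `⋃ (n x / r)` are in `U` or very close to one of
the points `x / s`. -/
theorem stage (a δ₀ : ℝ) (ha : 0 < a) (hδ₀ : 0 < δ₀) (Y : ℕ) (ρ : ℝ) (hρ : 1 < ρ) (Xm : ℝ)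
    (_hXm : 0 < Xm) :
    ∃ (U : Set ℝ) (B : ℝ), IsOpen U ∧ U ⊆ Set.Iio B ∧
      (∀ X : ℝ, 0 < X → volume (Set.Iic X ∩ U) ≤ ENNReal.ofReal (δ₀ * X)) ∧
      ∀ x : ℝ, 0 < x → x ≤ Xm → ∃ n : ℕ, n.Prime ∧ Y ≤ n ∧
        ∀ r : ℕ, 0 < r → ∀ z : ℝ, a ≤ z → (n : ℝ) * x = r * z → z ∈ U ∨
          ∃ (s : ℕ) (q : ℝ), 0 < s ∧ 1 / ρ < q ∧ q < ρ ∧ z = q * (x / s) := by
  classical
  set δ : ℝ := min (1 / 2) (δ₀ / 8) with hδ
  have hδ0 : 0 < δ := by rw [hδ]; positivity
  obtain ⟨K, hK⟩ := exists_nat_gt (2 / δ)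
  have hK0 : (0 : ℝ) < K := lt_trans (by positivity) hK
  have hK0' : 0 < K := by exact_mod_cast hK0
  have hKδ : 1 / (K : ℝ) < δ / 2 := by
    rw [div_lt_iff₀ hδ0] at hK
    rw [div_lt_div_iff₀ hK0 (by norm_num)]
    linarith
  obtain ⟨P, hPm, hPp, hPY, hPρ⟩ := cluster K Y ρ hρ
  set β : ℕ → ℝ := fun p => if h : ∃ k, k < K ∧ P k = p then (h.choose : ℝ) / K else 0 with hβ
  have hβP : ∀ k, k < K → β (P k) = k / K := by
    intro k hk
    have h : ∃ k', k' < K ∧ P k' = P k := ⟨k, hk, rfl⟩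
    simp only [hβ]
    rw [dif_pos h]
    rw [hPm.injective h.choose_spec.2]
  have hβ0 : ∀ p, (¬ ∃ k, k < K ∧ P k = p) → β p = 0 := by
    intro p hp
    simp only [hβ]
    rw [dif_neg hp]
  -- bound for all `r` and all `z`
  set B : ℝ := P K * Xm + 1 with hB
  obtain ⟨N, hN⟩ := exists_nat_gt (max ((P K : ℝ) + 1) (P K * Xm / a))
  have hN1 : (P K : ℝ) + 1 < N := lt_of_le_of_lt (le_max_left _ _) hN
  have hN2 : P K * Xm / a < N := lt_of_le_of_lt (le_max_right _ _) hN
  obtain ⟨t, ht, ht1, ht2⟩ := phases2 N β (δ / 4) (by positivity) 1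
  refine ⟨R t δ ∩ Set.Iio B, B, (isOpen_R t δ).inter isOpen_Iio, Set.inter_subset_right, ?_, ?_⟩
  · intro X hX
    refine (measure_mono ?_).trans ((vol_R t δ X ht.le hδ0 (min_le_left _ _) hX).trans ?_)
    · rintro z ⟨h1, h2, _⟩; exact ⟨h1, h2⟩
    · apply ENNReal.ofReal_le_ofReal
      have : δ ≤ δ₀ / 8 := min_le_right _ _
      have : 8 * δ ≤ δ₀ := by linarith
      gcongr
  · intro x hx hxX
    set u : ℝ := t * Real.log x with hu
    set m : ℤ := ⌊K * u⌋ with hm
    set k : ℕ := ((-m) % (K : ℤ)).toNat with hk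
    have hKz : (0 : ℤ) < K := by exact_mod_cast hK0'
    have hkk : ((k : ℕ) : ℤ) = (-m) % (K : ℤ) := by
      rw [hk]; exact Int.toNat_of_nonneg (Int.emod_nonneg _ hKz.ne')
    have hkK : k < K := by
      have : (k : ℤ) < K := by rw [hkk]; exact Int.emod_lt_of_pos _ hKz
      exact_mod_cast this
    -- m + k = K * q
    obtain ⟨q, hq⟩ : ∃ q : ℤ, m + k = K * q := by
      refine ⟨-((-m) / K), ?_⟩
      rw [hkk]
      have := Int.mul_ediv_add_emod (-m) K
      linarith
    have hPkK : (P k : ℝ) < P K := by exact_mod_cast hPm hkK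
    have hn1 : P k < N := by
      have : (P k : ℝ) < N := by linarith
      exact_mod_cast this
    refine ⟨P k, hPp k, hPY.trans (hPm.monotone (Nat.zero_le k)), ?_⟩
    intro r hr z hz hrz
    have hzpos : 0 < z := by linarith
    have hrpos : (0:ℝ) < r := by exact_mod_cast hr
    have hr1 : (1:ℝ) ≤ r := by exact_mod_cast hr
    have hnpos : (0:ℝ) < P k := by exact_mod_cast (hPp k).pos
    have hP0 : (0:ℝ) < P 0 := by exact_mod_cast (hPp 0).pos
    have hprod : (P k : ℝ) * x ≤ P K * Xm := by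
      have : (0:ℝ) < P K := lt_trans hnpos hPkK
      gcongr
    by_cases hdiv : ∃ j, j < K ∧ P j ∣ r
    · right
      obtain ⟨j, hjK, s, rfl⟩ := hdiv
      have hs : 0 < s := Nat.pos_of_ne_zero (by rintro rfl; simp at hr)
      have hspos : (0:ℝ) < s := by exact_mod_cast hs
      have hjpos : (0:ℝ) < P j := by exact_mod_cast (hPp j).pos
      have h0j : (P 0 : ℝ) ≤ P j := by exact_mod_cast hPm.monotone (Nat.zero_le j)
      have h0k : (P 0 : ℝ) ≤ P k := by exact_mod_cast hPm.monotone (Nat.zero_le k)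
      have hjK' : (P j : ℝ) < P K := by exact_mod_cast hPm hjK
      refine ⟨s, (P k : ℝ) / P j, hs, ?_, ?_, ?_⟩
      · rw [div_lt_div_iff₀ (by linarith) hjpos]
        calc 1 * (P j : ℝ) = P j := one_mul _
          _ < P K := hjK'
          _ < ρ * P 0 := hPρ
          _ ≤ ρ * P k := by gcongr
          _ = P k * ρ := mul_comm _ _
      · rw [div_lt_iff₀ hjpos]
        calc (P k : ℝ) < P K := hPkK
          _ < ρ * P 0 := hPρ
          _ ≤ ρ * P j := by gcongr
      · push_cast at hrz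
        field_simp
        linarith
    · left
      push Not at hdiv
      have hrN : r < N := by
        have h1 : (r : ℝ) * a ≤ P K * Xm := by
          calc (r : ℝ) * a ≤ r * z := by gcongr
            _ = P k * x := hrz.symm
            _ ≤ _ := hprod
        have h2 : (r : ℝ) ≤ P K * Xm / a := by
          rw [le_div_iff₀ ha]; exact h1
        have h3 : (r : ℝ) < N := lt_of_le_of_lt h2 hN2
        exact_mod_cast h3
      have hzB : z < B := by
        have h1 : z ≤ r * z := by nlinarith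
        rw [hB]
        linarith
      obtain ⟨n1, hn1'⟩ := ht1 (P k) (hPp k) hn1
      rw [hβP k hkK] at hn1'
      obtain ⟨n2, hn2⟩ := ht2 r hr hrN (by
        intro p hp hpr
        apply hβ0
        rintro ⟨j, hj, rfl⟩
        exact hdiv j hj hpr)
      refine ⟨?_, hzB⟩
      rw [mem_R]
      refine ⟨hzpos, n1 + q - n2, ?_⟩
      have hlog : Real.log z = Real.log (P k) + Real.log x - Real.log r := by
        have h1 : Real.log ((P k : ℝ) * x) = Real.log ((r : ℝ) * z) := by rw [hrz]
        rw [Real.log_mul hnpos.ne' hx.ne', Real.log_mul hrpos.ne' hzpos.ne'] at h1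
        linarith
      have hq' : (m : ℝ) + k = K * q := by exact_mod_cast hq
      have hfl : (m : ℝ) ≤ K * u := Int.floor_le _
      have hfl2 : K * u < m + 1 := Int.lt_floor_add_one _
      -- 0 ≤ u + k/K - q < 1/K
      have h1 : u + k / K - q = (K * u - m) / K := by
        field_simp
        linarith
      have h2 : 0 ≤ u + k / K - q := by
        rw [h1]; apply div_nonneg _ hK0.le; linarith
      have h3 : u + k / K - q ≤ 1 / K := by
        rw [h1]
        apply div_le_div_of_nonneg_right _ hK0.le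
        linarith
      have e : t * Real.log z - ((n1 + q - n2 : ℤ) : ℝ) =
          (t * Real.log (P k) - k / K - n1) + (u + k / K - q) - (t * Real.log r - n2) := by
        rw [hlog, hu]; push_cast; ring
      rw [e]
      rw [abs_lt] at hn1' hn2 ⊢
      constructor <;> linarith [hn1'.1, hn1'.2, hn2.1, hn2.2]

end Pool.Agent.Y762.HD
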