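import Pool.Agent.W755.HaightC

/-!
Phases of the integers without prime factors in a cluster, and the measure of the set of the `z`
with `t log z` near an integer, at all scales.
-/

set_option autoImplicit false

namespace Pool.Agent.Y762.HD

open Finset Filter Topology MeasureTheory
open Pool.Agent.W755.Haight

/-- prescribed phases at the primes below `N`, additive phases at all integers below `N` all of
whose prime factors have phase zero -/
theorem phases2 (N : ℕ) (β : ℕ → ℝ) (ε : ℝ) (hε : 0 < ε) (T0 : ℝ) :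
    ∃ t > T0, (∀ p : ℕ, p.Prime → p < N → ∃ n : ℤ, |t * Real.log p - β p - n| < ε) ∧
      (∀ r : ℕ, 0 < r → r < N → (∀ p : ℕ, p.Prime → p ∣ r → β p = 0) →
        ∃ n : ℤ, |t * Real.log r - n| < ε) := by
  classical
  obtain ⟨t, ht, h⟩ := phases N β (ε / (N + 1)) (by positivity) T0
  have hle : ε / (N + 1) ≤ ε := by
    apply div_le_self hε.le
    have : (0 : ℝ) ≤ N := Nat.cast_nonneg N
    linarith
  refine ⟨t, ht, fun p hp hpN => ?_, ?_⟩
  · obtain ⟨n, hn⟩ := h p hp hpN
    exact ⟨n, hn.trans_le hle⟩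
  · intro r hr hrM hrβ
    have key : ∀ r : ℕ, 0 < r → r < N → (∀ p : ℕ, p.Prime → p ∣ r → β p = 0) →
        ∃ n : ℤ, |t * Real.log r - n| ≤ (r - 1) * (ε / (N + 1)) := by
      intro r
      induction r using Nat.strong_induction_on with
      | _ r ih =>
        intro hr hrM hrβ
        by_cases h1 : r = 1
        · subst h1; exact ⟨0, by simp⟩
        · obtain ⟨p, hp, hpr⟩ := Nat.exists_prime_and_dvd h1
          have hβp : β p = 0 := hrβ p hp hpr
          obtain ⟨s, rfl⟩ := hpr
          have hs : 0 < s := Nat.pos_of_ne_zero (by rintro rfl; simp at hr)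
          have hp2 := hp.two_le
          have hlt : s < p * s := by nlinarith
          obtain ⟨n1, hn1⟩ := ih s hlt hs (hlt.trans hrM)
            (fun q hq hqs => hrβ q hq (hqs.mul_left p))
          have hpM : p < N := lt_of_le_of_lt (Nat.le_mul_of_pos_right p hs) hrM
          obtain ⟨n2, hn2⟩ := h p hp hpM
          rw [hβp, sub_zero] at hn2
          refine ⟨n1 + n2, ?_⟩
          have hpos : (0:ℝ) < p := by exact_mod_cast hp.pos
          have hspos : (0:ℝ) < s := by exact_mod_cast hs
          have e1 : Real.log ((p * s : ℕ) : ℝ) = Real.log p + Real.log s := by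
            push_cast
            rw [Real.log_mul hpos.ne' hspos.ne']
          rw [e1]
          have e2 : t * (Real.log p + Real.log s) - ((n1 + n2 : ℤ) : ℝ) =
              (t * Real.log s - n1) + (t * Real.log p - n2) := by push_cast; ring
          rw [e2]
          have hε' : 0 < ε / (N + 1) := by positivity
          have h3 : ((s:ℝ) - 1) + 1 ≤ ((p * s : ℕ) : ℝ) - 1 := by
            have : s + 1 ≤ p * s := hlt
            have h4 : ((s + 1 : ℕ) : ℝ) ≤ ((p * s : ℕ) : ℝ) := by exact_mod_cast this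
            push_cast at h4 ⊢
            linarith
          calc |(t * Real.log s - n1) + (t * Real.log p - n2)|
              ≤ |t * Real.log s - n1| + |t * Real.log p - n2| := abs_add_le _ _
            _ ≤ (s - 1) * (ε / (N + 1)) + ε / (N + 1) := by linarith
            _ = (((s:ℝ) - 1) + 1) * (ε / (N + 1)) := by ring
            _ ≤ _ := by
                apply mul_le_mul_of_nonneg_right h3 hε'.le
    obtain ⟨n, hn⟩ := key r hr hrM hrβ
    refine ⟨n, hn.trans_lt ?_⟩
    have hM : (0:ℝ) < (N:ℝ) + 1 := by positivity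
    have hr' : (r:ℝ) < N := by exact_mod_cast hrM
    rw [mul_div_assoc', div_lt_iff₀ hM]
    nlinarith

/-- the measure of the set `R t δ` below `X` is at most `8 δ X` -/
theorem vol_R (t δ X : ℝ) (ht : 1 ≤ t) (hδ : 0 < δ) (hδ2 : δ ≤ 1 / 2) (hX : 0 < X) :
    volume (Set.Iic X ∩ R t δ) ≤ ENNReal.ofReal (8 * δ * X) := by
  have ht0 : 0 < t := by linarith
  set M : ℤ := ⌊t * Real.log X + δ⌋ with hM
  have hMle : (M : ℝ) ≤ t * Real.log X + δ := Int.floor_le _
  set q : ℝ := Real.exp (-1 / t) with hq
  have hq0 : 0 < q := Real.exp_pos _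
  have hq1 : q < 1 := by
    rw [hq, Real.exp_lt_one_iff]
    exact div_neg_of_neg_of_pos (by norm_num) ht0
  set U : ℕ → Set ℝ := fun j =>
    Set.Ioo (Real.exp ((M - j - δ) / t)) (Real.exp ((M - j + δ) / t)) with hU
  have hsub : Set.Iic X ∩ R t δ ⊆ ⋃ j : ℕ, U j := by
    rintro z ⟨hz, hzR⟩
    obtain ⟨hz0, n, hn⟩ := mem_R.1 hzR
    have h3 : Real.log z ≤ Real.log X := Real.log_le_log hz0 hz
    rw [abs_lt] at hn
    have h4 : (n - δ) / t < Real.log z := by
      rw [div_lt_iff₀ ht0]; linarith
    have h5 : Real.log z < (n + δ) / t := by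
      rw [lt_div_iff₀ ht0]; linarith
    have h6 : Real.exp ((n - δ) / t) < z := by
      rwa [← Real.lt_log_iff_exp_lt hz0]
    have h7 : z < Real.exp ((n + δ) / t) := by
      rwa [← Real.log_lt_iff_lt_exp hz0]
    have h8 : t * Real.log z ≤ t * Real.log X := by gcongr
    have hnM : n ≤ M := by
      rw [hM]; apply Int.le_floor.2; linarith
    refine Set.mem_iUnion.2 ⟨(M - n).toNat, ?_⟩
    have h9 : (((M - n).toNat : ℕ) : ℝ) = (M : ℝ) - n := by
      have : (((M - n).toNat : ℤ) : ℝ) = ((M - n : ℤ) : ℝ) := by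
        rw [Int.toNat_of_nonneg (by omega)]
      rw [Int.cast_natCast] at this
      rw [this]; push_cast; ring
    simp only [hU, h9]
    have e : (M : ℝ) - (M - n) = n := by ring
    rw [e]
    exact ⟨h6, h7⟩
  have hexpX : Real.exp ((M - δ) / t) ≤ X := by
    rw [← Real.le_log_iff_exp_le hX, div_le_iff₀ ht0]
    linarith
  have hUv : ∀ j : ℕ, volume (U j) ≤ ENNReal.ofReal (4 * δ / t * X * q ^ j) := by
    intro j
    simp only [hU]
    rw [Real.volume_Ioo]
    apply ENNReal.ofReal_le_ofReal
    have e1 : (M - j + δ) / t = (M - j - δ) / t + 2 * δ / t := by ring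
    rw [e1, Real.exp_add]
    have h9 : Real.exp (2 * δ / t) ≤ 1 + 2 * (2 * δ / t) := by
      have h10 : 0 ≤ 2 * δ / t := by positivity
      have h11 : 2 * δ / t ≤ 1 := by
        rw [div_le_one ht0]; linarith
      have := Real.abs_exp_sub_one_le (x := 2 * δ / t) (by rw [abs_of_nonneg h10]; exact h11)
      rw [abs_of_nonneg h10] at this
      have := (abs_le.1 this).2
      linarith
    have e2 : Real.exp ((M - j - δ) / t) = Real.exp ((M - δ) / t) * q ^ j := by
      rw [hq, ← Real.exp_nat_mul, ← Real.exp_add]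
      congr 1
      field_simp
      ring
    have h12 : 0 < Real.exp ((M - j - δ) / t) := Real.exp_pos _
    have h13 : Real.exp ((M - j - δ) / t) ≤ X * q ^ j := by
      rw [e2]; gcongr
    have h14 : 0 ≤ 2 * (2 * δ / t) := by positivity
    calc Real.exp ((M - j - δ) / t) * Real.exp (2 * δ / t) - Real.exp ((M - j - δ) / t)
        = Real.exp ((M - j - δ) / t) * (Real.exp (2 * δ / t) - 1) := by ring
      _ ≤ Real.exp ((M - j - δ) / t) * (2 * (2 * δ / t)) := by gcongr; linarith
      _ ≤ X * q ^ j * (2 * (2 * δ / t)) := by gcongr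
      _ = 4 * δ / t * X * q ^ j := by ring
  have hq2 : 1 / (1 - q) ≤ t + 1 := by
    have h1 : 1 / t + 1 ≤ Real.exp (1 / t) := Real.add_one_le_exp _
    have h2 : q * Real.exp (1 / t) = 1 := by
      rw [hq, ← Real.exp_add, neg_div, neg_add_cancel, Real.exp_zero]
    have h3 : q * (1 / t + 1) ≤ 1 := by
      calc q * (1 / t + 1) ≤ q * Real.exp (1 / t) := by gcongr
        _ = 1 := h2
    have h4 : q * (t + 1) ≤ t := by
      have : q * (t + 1) = q * (1 / t + 1) * t := by field_simp; ring
      rw [this]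
      nlinarith
    rw [div_le_iff₀ (by linarith)]
    nlinarith
  calc volume (Set.Iic X ∩ R t δ) ≤ volume (⋃ j : ℕ, U j) := measure_mono hsub
    _ ≤ ∑' j : ℕ, volume (U j) := measure_iUnion_le _
    _ ≤ ∑' j : ℕ, ENNReal.ofReal (4 * δ / t * X * q ^ j) := ENNReal.tsum_le_tsum hUv
    _ = ENNReal.ofReal (∑' j : ℕ, 4 * δ / t * X * q ^ j) := by
        rw [ENNReal.ofReal_tsum_of_nonneg (fun j => by positivity)]
        exact (summable_geometric_of_lt_one hq0.le hq1).mul_left _
    _ ≤ ENNReal.ofReal (8 * δ * X) := by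
        apply ENNReal.ofReal_le_ofReal
        rw [tsum_mul_left, tsum_geometric_of_lt_one hq0.le hq1, ← one_div]
        calc 4 * δ / t * X * (1 / (1 - q)) ≤ 4 * δ / t * X * (t + 1) := by gcongr
          _ ≤ 4 * δ / t * X * (2 * t) := by gcongr; linarith
          _ = 8 * δ * X := by field_simp; ring

end Pool.Agent.Y762.HD
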